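import Pool.Agent.Rect.Mod.Stmt
import Pool.Agent.Rect.Herm.FamW
import Pool.Agent.Rect.Herm.Z2h
import Pool.Agent.Rect.Herm.SpecOf
import Pool.Agent.Rect.Perc.Dual
import Pool.Agent.Rect.Perc.Rsw
import Pool.Agent.Rect.Perc.Fekete
import Pool.Agent.Rect.Perc.Inst

/-!
# RECT: assembly

The crossing probabilities `P n M` of the diagonal rectangles of the square lattice satisfy
`RectMod.Lattice`; hence they converge to Cardy's function of the aspect ratio.
-/

set_option autoImplicit false

namespace Pool.Agent.Rect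

open H47Perc.RC Filter Topology Pool.Agent.Rect.Herm

/-- **the lattice input of the rectangle theorem** -/
theorem lattice_P : RectMod.Lattice P where
  fam := fam
  dual n M hn hM := ⟨one_sub_le_P hn hM, P_le_one_sub hn hM⟩
  submul n M M' := P_add_le n M M'
  rsw := by
    obtain ⟨c, hc, h⟩ := rsw
    exact ⟨c ^ 2, by positivity, fun n k hn hk => P_long hc.le h hn hk⟩
  spec := spec_of_data (fun n hn => hermData_of (fun p => ⟨fun w hw => by
    simpa using Sf_zvec ℝ p hw⟩) n hn) (fun n M hn hM => P_le_one_sub hn hM)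

/-- **CARDY'S FORMULA FOR ALL RECTANGLES** (the form with the eta function) -/
theorem cardy_rectangles {ι : Type*} {l : Filter ι} {n M : ι → ℕ} (hn : Tendsto n l atTop)
    {ρ : ℝ} (hρ : 0 < ρ) (hM : Tendsto (fun i => (M i : ℝ) / n i) l (𝓝 ρ)) :
    Tendsto (fun i => P (n i) (M i)) l (𝓝 (RectMod.cardy ρ)) :=
  lattice_P.main hn hρ hM

end Pool.Agent.Rect
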